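import Pool.Agent.Lib.MP_e6fbad_gt.Normal

open Set Filter Topology
open scoped Manifold ContDiff
open Pool.Agent.Lib.MP_e6fbad_gt

namespace Pool.Agent.Results.MP_e6fbad_gt.Unique

/-- **Uniqueness of the hyperelliptic involution.** If the Riemann surface `R` has a hyperelliptic
involution whose limit set is finite, then it has exactly one hyperelliptic involution. -/
theorem result {R : Type*} [TopologicalSpace R] [T2Space R] [ConnectedSpace R]
    [NoncompactSpace R] [ChartedSpace ℂ R] [IsManifold 𝓘(ℂ) ω R]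
    (h : ∃ (B : Set (OnePoint ℂ)) (τ : R ≃ₘ^ω⟮𝓘(ℂ), 𝓘(ℂ)⟯ R),
      IsHyperellipticInvolution B τ ∧ (derivedSet B).Finite) :
    ∃! τ : R ≃ₘ^ω⟮𝓘(ℂ), 𝓘(ℂ)⟯ R, ∃ B : Set (OnePoint ℂ), IsHyperellipticInvolution B τ := by
  have : IsManifold 𝓘(ℂ) 1 R := IsManifold.of_le (n := ω) le_top
  obtain ⟨B₀, τ₀, h₀, hfin⟩ := h
  refine ⟨τ₀, ⟨B₀, h₀⟩, ?_⟩
  rintro τ ⟨B, hB⟩
  obtain ⟨p, hP, -, -, hp⟩ := exists_normalized h₀
  obtain ⟨hF, a, ε, hε, hK⟩ := hp hfin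
  obtain ⟨q, hQ, hfix, hne, -⟩ := exists_normalized hB
  have := unique_of_two hP hQ hF hε hK hfix hne
  ext x
  exact this x

end Pool.Agent.Results.MP_e6fbad_gt.Unique
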